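import Mathlib

namespace Pool.Agent.Results.MP_207d4d_co.NonUnimodal

/-- A finite graph, loops and multiple edges allowed: its vertices are `Fin n`, and `mult s(x, y)` is
the number of edges joining `x` and `y` (the number of loops at `x` when `x = y`). -/
structure FGraph where
  n : ℕ
  mult : Sym2 (Fin n) → ℕ

/-- `H` is isomorphic to an induced subgraph of `G` (with all multiplicities and loops). -/
def FGraph.IsInduced (H G : FGraph) : Prop :=
  ∃ f : Fin H.n → Fin G.n, Function.Injective f ∧ ∀ x y, G.mult s(f x, f y) = H.mult s(x, y)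

/-- Isomorphism of graphs. -/
def FGraph.Iso (H G : FGraph) : Prop :=
  ∃ f : Fin H.n ≃ Fin G.n, ∀ x y, G.mult s(f x, f y) = H.mult s(x, y)

/-- Connectedness (of a nonempty graph). -/
def FGraph.Connected (G : FGraph) : Prop :=
  0 < G.n ∧ ∀ x y : Fin G.n, Relation.ReflTransGen (fun a b => 0 < G.mult s(a, b)) x y

theorem iso_refl (G : FGraph) : G.Iso G := ⟨Equiv.refl _, fun _ _ => rfl⟩
theorem iso_symm {G H : FGraph} (h : G.Iso H) : H.Iso G := by
  obtain ⟨f, hf⟩ := h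
  refine ⟨f.symm, fun x y => ?_⟩
  rw [← hf]; simp
theorem iso_trans {G H K : FGraph} (h : G.Iso H) (h' : H.Iso K) : G.Iso K := by
  obtain ⟨f, hf⟩ := h
  obtain ⟨g, hg⟩ := h'
  exact ⟨f.trans g, fun x y => by simp [hf, hg]⟩

instance setoid : Setoid FGraph where
  r := FGraph.Iso
  iseqv := ⟨iso_refl, iso_symm, iso_trans⟩

/-- The set `𝒢` of unlabelled graphs. -/
def UGraph : Type := Quotient setoid

theorem ind_of_iso {G H : FGraph} (h : G.Iso H) : G.IsInduced H := by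
  obtain ⟨f, hf⟩ := h
  exact ⟨f, f.injective, hf⟩

theorem ind_trans {G H K : FGraph} (h : G.IsInduced H) (h' : H.IsInduced K) : G.IsInduced K := by
  obtain ⟨f, hi, hf⟩ := h
  obtain ⟨g, gi, hg⟩ := h'
  exact ⟨g ∘ f, gi.comp hi, fun x y => by simp [hf, hg]⟩

theorem iso_of_ind_ind {G H : FGraph} (h : G.IsInduced H) (h' : H.IsInduced G) : G.Iso H := by
  obtain ⟨f, hi, hf⟩ := h
  obtain ⟨g, gi, hg⟩ := h'
  have h1 : G.n ≤ H.n := by simpa using Fintype.card_le_of_injective f hi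
  have h2 : H.n ≤ G.n := by simpa using Fintype.card_le_of_injective g gi
  have hb : Function.Bijective f :=
    (Fintype.bijective_iff_injective_and_card f).2 ⟨hi, by simp; omega⟩
  exact ⟨Equiv.ofBijective f hb, fun x y => by simpa using hf x y⟩

/-- The poset structure of `𝒢`: `H ≤ G` when `H` is isomorphic to an induced subgraph of `G`. -/
instance : PartialOrder UGraph where
  le := Quotient.lift₂ FGraph.IsInduced (by
    intro a b c d h1 h2
    apply propext
    constructor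
    · intro h
      exact ind_trans (ind_of_iso (iso_symm h1)) (ind_trans h (ind_of_iso h2))
    · intro h
      exact ind_trans (ind_of_iso h1) (ind_trans h (ind_of_iso (iso_symm h2))))
  le_refl := by
    rintro ⟨a⟩
    exact ind_of_iso (iso_refl a)
  le_trans := by
    rintro ⟨a⟩ ⟨b⟩ ⟨c⟩ h1 h2
    exact ind_trans h1 h2
  le_antisymm := by
    rintro ⟨a⟩ ⟨b⟩ h1 h2
    exact Quotient.sound (iso_of_ind_ind h1 h2)

/-- Number of vertices. -/
def UGraph.order : UGraph → ℕ :=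
  Quotient.lift FGraph.n (by
    rintro a b ⟨f, hf⟩
    simpa using Fintype.card_congr f)

theorem connected_of_iso {a b : FGraph} (h : a.Iso b) (hc : a.Connected) : b.Connected := by
  obtain ⟨f, hf⟩ := h
  obtain ⟨h0, h1⟩ := hc
  refine ⟨?_, fun x y => ?_⟩
  · have := Fintype.card_congr f
    simp at this
    omega
  · have key : ∀ u v : Fin a.n, Relation.ReflTransGen (fun a' b' => 0 < a.mult s(a', b')) u v →
        Relation.ReflTransGen (fun a' b' => 0 < b.mult s(a', b')) (f u) (f v) := by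
      intro u v huv
      induction huv with
      | refl => exact Relation.ReflTransGen.refl
      | tail _ h2 ih =>
        refine ih.tail ?_
        rw [hf]
        exact h2
    have h2 := key _ _ (h1 (f.symm x) (f.symm y))
    simpa using h2

/-- Connectedness of an unlabelled graph. -/
def UGraph.Connected : UGraph → Prop :=
  Quotient.lift FGraph.Connected (by
    intro a b h
    exact propext ⟨connected_of_iso h, connected_of_iso (iso_symm h)⟩)

/-- `r_k` of the interval `[H, G]` of `𝒢`. -/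
noncomputable def rankSize (H G : UGraph) (k : ℕ) : ℕ :=
  {K : UGraph | H ≤ K ∧ K ≤ G ∧ K.order = H.order + k}.ncard

/-- `r_k` of the interval `[H, G]^c` of the poset `𝒢^c` of connected graphs. -/
noncomputable def rankSizeC (H G : UGraph) (k : ℕ) : ℕ :=
  {K : UGraph | K.Connected ∧ H ≤ K ∧ K ≤ G ∧ K.order = H.order + k}.ncard

/-- The sequence `r 0, …, r N` is unimodal. -/
def Unimodal (r : ℕ → ℕ) (N : ℕ) : Prop :=
  ∃ m ≤ N, (∀ i j, i ≤ j → j ≤ m → r i ≤ r j) ∧ (∀ i j, m ≤ i → i ≤ j → j ≤ N → r j ≤ r i)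

theorem not_unimodal {r : ℕ → ℕ} {N i j k : ℕ} (hij : i ≤ j) (hjk : j ≤ k) (hk : k ≤ N)
    (h1 : r j < r i) (h2 : r j < r k) : ¬ Unimodal r N := by
  rintro ⟨m, hm, ha, hb⟩
  rcases le_total m j with h | h
  · have := hb j k h hjk hk
    omega
  · have := ha i j hij h
    omega

/-! ### The graph -/

/-- Two copies of `K₄` (on `0,1,2,3` and on `4,5,6,7`) joined by the two edges `04` and `15`. -/
def adj (x y : Fin 8) : ℕ :=
  if x = y then 0 else if x.val / 4 = y.val / 4 then 1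
  else if x.val % 4 = y.val % 4 ∧ x.val % 4 < 2 then 1 else 0

theorem adj_comm (x y : Fin 8) : adj x y = adj y x := by revert x y; decide

/-- The graph on `Fin n` pulled back along `f : Fin n → Fin 8`. -/
def sub {n : ℕ} (f : Fin n → Fin 8) : FGraph :=
  ⟨n, Sym2.lift ⟨fun x y => adj (f x) (f y), fun _ _ => adj_comm _ _⟩⟩

/-- The `8`-vertex graph. -/
def G8 : FGraph := sub (n := 8) id

/-- The one-vertex graph without loop. -/
def K1 : FGraph := ⟨1, fun _ => 0⟩

def cls (G : FGraph) : UGraph := Quotient.mk setoid G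

/-- Representatives of the `4`-vertex induced subgraphs. -/
def R4 : Fin 6 → Fin 4 → Fin 8 :=
  ![![0, 1, 2, 3],
    ![0, 1, 2, 4],
    ![0, 1, 2, 6],
    ![0, 1, 4, 5],
    ![0, 1, 4, 6],
    ![0, 1, 6, 7]]

def F4 : Fin 6 → Bool := ![true, true, false, true, true, false]

def L4 : Fin 6 → Fin 4 → ℕ :=
  ![![0, 1, 1, 1],
    ![0, 1, 1, 1],
    ![1, 1, 1, 0],
    ![0, 1, 1, 2],
    ![0, 1, 1, 2],
    ![1, 1, 0, 0]]

def tab4 : List ((Fin 4 → Fin 8) × Fin 6) :=
  [(![0, 1, 2, 3], 0), (![0, 1, 2, 4], 1), (![1, 0, 2, 5], 1),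
   (![0, 1, 2, 6], 2), (![0, 1, 2, 7], 2), (![0, 1, 3, 4], 1),
   (![1, 0, 3, 5], 1), (![0, 1, 3, 6], 2), (![0, 1, 3, 7], 2),
   (![0, 1, 4, 5], 3), (![0, 1, 4, 6], 4), (![0, 1, 4, 7], 4),
   (![1, 0, 5, 6], 4), (![1, 0, 5, 7], 4), (![0, 1, 6, 7], 5),
   (![0, 2, 3, 4], 1), (![0, 2, 3, 5], 2), (![0, 2, 3, 6], 2),
   (![0, 2, 3, 7], 2), (![0, 2, 4, 5], 4), (![0, 2, 4, 6], 4),
   (![0, 2, 4, 7], 4), (![0, 2, 5, 6], 5), (![0, 2, 5, 7], 5),
   (![0, 2, 6, 7], 5), (![0, 3, 4, 5], 4), (![0, 3, 4, 6], 4),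
   (![0, 3, 4, 7], 4), (![0, 3, 5, 6], 5), (![0, 3, 5, 7], 5),
   (![0, 3, 6, 7], 5), (![4, 5, 6, 0], 1), (![4, 5, 7, 0], 1),
   (![4, 6, 7, 0], 1), (![5, 6, 7, 0], 2), (![1, 2, 3, 4], 2),
   (![1, 2, 3, 5], 1), (![1, 2, 3, 6], 2), (![1, 2, 3, 7], 2),
   (![1, 2, 5, 4], 4), (![1, 2, 4, 6], 5), (![1, 2, 4, 7], 5),
   (![1, 2, 5, 6], 4), (![1, 2, 5, 7], 4), (![1, 2, 6, 7], 5),
   (![1, 3, 5, 4], 4), (![1, 3, 4, 6], 5), (![1, 3, 4, 7], 5),
   (![1, 3, 5, 6], 4), (![1, 3, 5, 7], 4), (![1, 3, 6, 7], 5),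
   (![5, 4, 6, 1], 1), (![5, 4, 7, 1], 1), (![4, 6, 7, 1], 2),
   (![5, 6, 7, 1], 1), (![2, 3, 4, 5], 5), (![2, 3, 4, 6], 5),
   (![2, 3, 4, 7], 5), (![2, 3, 5, 6], 5), (![2, 3, 5, 7], 5),
   (![2, 3, 6, 7], 5), (![4, 5, 6, 2], 2), (![4, 5, 7, 2], 2),
   (![4, 6, 7, 2], 2), (![5, 6, 7, 2], 2), (![4, 5, 6, 3], 2),
   (![4, 5, 7, 3], 2), (![4, 6, 7, 3], 2), (![5, 6, 7, 3], 2),
   (![4, 5, 6, 7], 0)]

/-- Representatives of the `5`-vertex induced subgraphs. -/
def R5 : Fin 5 → Fin 5 → Fin 8 :=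
  ![![0, 1, 2, 3, 4],
    ![0, 1, 2, 3, 6],
    ![0, 1, 2, 4, 5],
    ![0, 1, 2, 4, 6],
    ![0, 1, 2, 6, 7]]

def F5 : Fin 5 → Bool := ![true, false, true, true, false]

def L5 : Fin 5 → Fin 5 → ℕ :=
  ![![0, 1, 1, 1, 1],
    ![1, 1, 1, 1, 0],
    ![0, 1, 1, 1, 2],
    ![0, 1, 1, 1, 2],
    ![1, 1, 1, 0, 0]]

def tab5 : List ((Fin 5 → Fin 8) × Fin 5) :=
  [(![0, 1, 2, 3, 4], 0), (![1, 0, 2, 3, 5], 0), (![0, 1, 2, 3, 6], 1),
   (![0, 1, 2, 3, 7], 1), (![0, 1, 2, 4, 5], 2), (![0, 1, 2, 4, 6], 3),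
   (![0, 1, 2, 4, 7], 3), (![1, 0, 2, 5, 6], 3), (![1, 0, 2, 5, 7], 3),
   (![0, 1, 2, 6, 7], 4), (![0, 1, 3, 4, 5], 2), (![0, 1, 3, 4, 6], 3),
   (![0, 1, 3, 4, 7], 3), (![1, 0, 3, 5, 6], 3), (![1, 0, 3, 5, 7], 3),
   (![0, 1, 3, 6, 7], 4), (![4, 5, 6, 0, 1], 2), (![4, 5, 7, 0, 1], 2),
   (![4, 6, 7, 0, 1], 3), (![5, 6, 7, 1, 0], 3), (![0, 2, 3, 4, 5], 3),
   (![0, 2, 3, 4, 6], 3), (![0, 2, 3, 4, 7], 3), (![0, 2, 3, 5, 6], 4),
   (![0, 2, 3, 5, 7], 4), (![0, 2, 3, 6, 7], 4), (![4, 5, 6, 0, 2], 3),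
   (![4, 5, 7, 0, 2], 3), (![4, 6, 7, 0, 2], 3), (![5, 6, 7, 0, 2], 4),
   (![4, 5, 6, 0, 3], 3), (![4, 5, 7, 0, 3], 3), (![4, 6, 7, 0, 3], 3),
   (![5, 6, 7, 0, 3], 4), (![4, 5, 6, 7, 0], 0), (![1, 2, 3, 5, 4], 3),
   (![1, 2, 3, 4, 6], 4), (![1, 2, 3, 4, 7], 4), (![1, 2, 3, 5, 6], 3),
   (![1, 2, 3, 5, 7], 3), (![1, 2, 3, 6, 7], 4), (![5, 4, 6, 1, 2], 3),
   (![5, 4, 7, 1, 2], 3), (![4, 6, 7, 1, 2], 4), (![5, 6, 7, 1, 2], 3),
   (![5, 4, 6, 1, 3], 3), (![5, 4, 7, 1, 3], 3), (![4, 6, 7, 1, 3], 4),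
   (![5, 6, 7, 1, 3], 3), (![5, 4, 6, 7, 1], 0), (![4, 5, 6, 2, 3], 4),
   (![4, 5, 7, 2, 3], 4), (![4, 6, 7, 2, 3], 4), (![5, 6, 7, 2, 3], 4),
   (![4, 5, 6, 7, 2], 1), (![4, 5, 6, 7, 3], 1)]

/-- Representatives of the `6`-vertex induced subgraphs. -/
def R6 : Fin 6 → Fin 6 → Fin 8 :=
  ![![0, 1, 2, 3, 4, 5],
    ![0, 1, 2, 3, 4, 6],
    ![0, 1, 2, 3, 6, 7],
    ![0, 1, 2, 4, 5, 6],
    ![0, 1, 2, 4, 6, 7],
    ![0, 2, 3, 5, 6, 7]]

def F6 : Fin 6 → Bool := ![true, true, false, true, true, false]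

def L6 : Fin 6 → Fin 6 → ℕ :=
  ![![0, 1, 1, 1, 1, 2],
    ![0, 1, 1, 1, 1, 2],
    ![1, 1, 1, 1, 0, 0],
    ![0, 1, 1, 1, 2, 2],
    ![0, 1, 1, 1, 2, 2],
    ![1, 1, 1, 0, 0, 0]]

def tab6 : List ((Fin 6 → Fin 8) × Fin 6) :=
  [(![0, 1, 2, 3, 4, 5], 0), (![0, 1, 2, 3, 4, 6], 1), (![0, 1, 2, 3, 4, 7], 1),
   (![1, 0, 2, 3, 5, 6], 1), (![1, 0, 2, 3, 5, 7], 1), (![0, 1, 2, 3, 6, 7], 2),
   (![0, 1, 2, 4, 5, 6], 3), (![0, 1, 2, 4, 5, 7], 3), (![0, 1, 2, 4, 6, 7], 4),
   (![1, 0, 2, 5, 6, 7], 4), (![0, 1, 3, 4, 5, 6], 3), (![0, 1, 3, 4, 5, 7], 3),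
   (![0, 1, 3, 4, 6, 7], 4), (![1, 0, 3, 5, 6, 7], 4), (![4, 5, 6, 7, 0, 1], 0),
   (![0, 2, 3, 4, 5, 6], 4), (![0, 2, 3, 4, 5, 7], 4), (![0, 2, 3, 4, 6, 7], 4),
   (![0, 2, 3, 5, 6, 7], 5), (![4, 5, 6, 7, 0, 2], 1), (![4, 5, 6, 7, 0, 3], 1),
   (![1, 2, 3, 5, 4, 6], 4), (![1, 2, 3, 5, 4, 7], 4), (![1, 2, 3, 4, 6, 7], 5),
   (![1, 2, 3, 5, 6, 7], 4), (![5, 4, 6, 7, 1, 2], 1), (![5, 4, 6, 7, 1, 3], 1),
   (![4, 5, 6, 7, 2, 3], 2)]

theorem exists_equiv {n : ℕ} {f g : Fin n → Fin 8} (hf : Function.Injective f)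
    (hg : Function.Injective g) (h : Set.range f = Set.range g) :
    ∃ e : Fin n ≃ Fin n, ∀ x, g (e x) = f x := by
  refine ⟨((Equiv.ofInjective f hf).trans (Equiv.setCongr h)).trans (Equiv.ofInjective g hg).symm,
    fun x => ?_⟩
  have := (Equiv.ofInjective g hg).apply_symm_apply ((Equiv.setCongr h) ((Equiv.ofInjective f hf) x))
  exact congrArg Subtype.val this

/-- The sum of the squares of the degrees. -/
def Q {n : ℕ} (f : Fin n → Fin 8) : ℕ := ∑ x, (∑ y, adj (f x) (f y)) ^ 2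

def QG (G : FGraph) : ℕ := ∑ x, (∑ y, G.mult s(x, y)) ^ 2

theorem QG_iso {G H : FGraph} (h : G.Iso H) : QG G = QG H := by
  obtain ⟨f, hf⟩ := h
  unfold QG
  rw [← Equiv.sum_comp f]
  apply Finset.sum_congr rfl
  intro x _
  rw [← Equiv.sum_comp f]
  simp [hf]

theorem conn_of {n : ℕ} (f : Fin n → Fin 8) (L : Fin n → ℕ) (hn : 0 < n)
    (h1 : ∀ x, L x = 0 → x.val = 0) (h2 : ∀ x, L x ≠ 0 → ∃ y, L y < L x ∧ adj (f x) (f y) ≠ 0) :
    (sub f).Connected := by
  have key : ∀ k, ∀ x : Fin n, L x = k → Relation.ReflTransGen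
      (fun a b : Fin n => 0 < (sub f).mult s(a, b)) x ⟨0, hn⟩ := by
    intro k
    induction k using Nat.strong_induction_on with
    | _ k ih =>
      intro x hx
      by_cases h0 : L x = 0
      · have : x = ⟨0, hn⟩ := Fin.ext (h1 x h0)
        rw [this]
      · obtain ⟨y, hy, ha⟩ := h2 x h0
        exact Relation.ReflTransGen.head (b := y) (Nat.pos_of_ne_zero ha) (ih (L y) (hx ▸ hy) y rfl)
  have hsym : ∀ a b : Fin n, Relation.ReflTransGen
      (fun a b : Fin n => 0 < (sub f).mult s(a, b)) a b → Relation.ReflTransGen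
      (fun a b : Fin n => 0 < (sub f).mult s(a, b)) b a := by
    intro a b hab
    induction hab with
    | refl => exact Relation.ReflTransGen.refl
    | tail _ h ih =>
      refine Relation.ReflTransGen.head ?_ ih
      have h' : 0 < adj (f _) (f _) := h
      rw [adj_comm] at h'
      exact h'
  refine ⟨hn, fun x y => ?_⟩
  exact (key _ x rfl).trans (hsym _ _ (key _ y rfl))

theorem not_conn_of {n : ℕ} (f : Fin n → Fin 8) (L : Fin n → ℕ)
    (h1 : ∃ x y, L x ≠ L y) (h2 : ∀ x y, adj (f x) (f y) ≠ 0 → L x = L y) :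
    ¬ (sub f).Connected := by
  rintro ⟨-, h⟩
  obtain ⟨x, y, hxy⟩ := h1
  apply hxy
  have key : ∀ x y : Fin n, Relation.ReflTransGen
      (fun a b : Fin n => 0 < (sub f).mult s(a, b)) x y → L x = L y := by
    intro x y hr
    induction hr with
    | refl => rfl
    | tail _ hbc ih => exact ih.trans (h2 _ _ (Nat.ne_of_gt hbc))
  exact key x y (h x y)

theorem exists_mask (P : Fin 8 → Prop) : ∃ a b : Fin 16, ∀ x : Fin 8,
    (16 * a.val + b.val).testBit x.val = true ↔ P x := by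
  classical
  let φ : Fin 256 → Finset (Fin 8) := fun m => Finset.univ.filter fun x => m.val.testBit x.val = true
  have hi : Function.Injective φ := by
    intro a b hab
    apply Fin.ext
    apply Nat.eq_of_testBit_eq
    intro i
    by_cases hi : i < 8
    · have := congrArg (fun S : Finset (Fin 8) => (⟨i, hi⟩ : Fin 8) ∈ S) hab
      simp only [φ, Finset.mem_filter, Finset.mem_univ, true_and, eq_iff_iff] at this
      exact Bool.eq_iff_iff.2 this
    · have h1 : a.val < 2 ^ i := lt_of_lt_of_le a.isLt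
        (le_trans (by norm_num) (Nat.pow_le_pow_right (by norm_num) (not_lt.1 hi)) : 256 ≤ 2 ^ i)
      have h2 : b.val < 2 ^ i := lt_of_lt_of_le b.isLt
        (le_trans (by norm_num) (Nat.pow_le_pow_right (by norm_num) (not_lt.1 hi)) : 256 ≤ 2 ^ i)
      rw [Nat.testBit_lt_two_pow h1, Nat.testBit_lt_two_pow h2]
  have hb : Function.Bijective φ :=
    (Fintype.bijective_iff_injective_and_card φ).2 ⟨hi, by simp⟩
  obtain ⟨m, hm⟩ := hb.2 (Finset.univ.filter P)
  refine ⟨⟨m.val / 16, by omega⟩, ⟨m.val % 16, by omega⟩, fun x => ?_⟩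
  have := congrArg (fun S : Finset (Fin 8) => x ∈ S) hm
  simp only [Nat.div_add_mod]
  simpa [φ] using this

/-- The data certifying the classification of the `n`-vertex induced subgraphs. -/
structure Cert (n r : ℕ) (R : Fin r → Fin n → Fin 8) (F : Fin r → Bool) (L : Fin r → Fin n → ℕ)
    (tab : List ((Fin n → Fin 8) × Fin r)) : Prop where
  tab_adj : (tab.all fun p => decide (∀ x y, adj (p.1 x) (p.1 y) = adj (R p.2 x) (R p.2 y))) = true
  tab_all : ∀ a b : Fin 16,
    ((List.finRange 8).filter fun x => (16 * a.val + b.val).testBit x.val).length = n →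
    ∃ p ∈ tab, ∀ x : Fin 8, (16 * a.val + b.val).testBit x.val = true ↔ ∃ y, p.1 y = x
  inj : ∀ j, ∀ x y, R j x = R j y → x = y
  dist : ∀ i j, Q (R i) = Q (R j) → i = j
  conn : ∀ j, F j = true → (∀ x, L j x = 0 → x.val = 0) ∧
    ∀ x, L j x ≠ 0 → ∃ y, L j y < L j x ∧ adj (R j x) (R j y) ≠ 0
  nconn : ∀ j, F j = false → (∃ x y, L j x ≠ L j y) ∧
    ∀ x y, adj (R j x) (R j y) ≠ 0 → L j x = L j y

section
variable {n r : ℕ} {R : Fin r → Fin n → Fin 8} {F : Fin r → Bool} {L : Fin r → Fin n → ℕ}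
  {tab : List ((Fin n → Fin 8) × Fin r)}

theorem set_eq (k : ℕ) (hk : n = 1 + k) (C : Cert n r R F L tab) :
    {K : UGraph | cls K1 ≤ K ∧ K ≤ cls G8 ∧ K.order = (cls K1).order + k} =
      Set.range (fun j => cls (sub (R j))) := by
  ext K
  constructor
  · rintro ⟨-, h2, h3⟩
    revert h2 h3
    refine Quotient.inductionOn K ?_
    rintro ⟨m, K⟩ h2 h3
    have hm : m = n := by
      have h4 : m = 1 + k := h3
      omega
    subst hm
    obtain ⟨f, hi, hf⟩ : ∃ f : Fin m → Fin 8, Function.Injective f ∧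
      ∀ x y, G8.mult s(f x, f y) = (FGraph.mk m K).mult s(x, y) := h2
    obtain ⟨a, b, hM⟩ := exists_mask (fun x => ∃ y, f y = x)
    have hlen : ((List.finRange 8).filter fun x => (16 * a.val + b.val).testBit x.val).length = m := by
      have h7 : ((List.finRange 8).filter fun x => (16 * a.val + b.val).testBit x.val).toFinset =
          Finset.univ.image f := by
        ext x
        simp [hM]
      have h8 : ((List.finRange 8).filter fun x => (16 * a.val + b.val).testBit x.val).toFinset.card =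
          ((List.finRange 8).filter fun x => (16 * a.val + b.val).testBit x.val).length :=
        List.toFinset_card_of_nodup ((List.nodup_finRange 8).filter _)
      rw [← h8, h7, Finset.card_image_of_injective _ hi]
      simp
    obtain ⟨p, hp, hpS⟩ := C.tab_all a b hlen
    have hr : Set.range f = Set.range p.1 := by
      ext x
      exact (hM x).symm.trans (hpS x)
    have hpi : Function.Injective p.1 := by
      have h9 : (Finset.univ.image p.1) = (Finset.univ.image f) := by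
        apply Finset.coe_injective
        simpa using hr.symm
      have : Finset.card (Finset.univ.image p.1) = Finset.card (Finset.univ : Finset (Fin m)) := by
        rw [h9, Finset.card_image_of_injective _ hi]
      rw [← Set.injOn_univ]
      have h5 := Finset.card_image_iff.1 this
      simpa using h5
    obtain ⟨e, he⟩ := exists_equiv hi hpi hr
    refine ⟨p.2, ?_⟩
    symm
    apply Quotient.sound
    refine ⟨e, fun x y => ?_⟩
    have h6 : adj (f x) (f y) = K s(x, y) := hf x y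
    show adj (R p.2 (e x)) (R p.2 (e y)) = K s(x, y)
    have h10 := List.all_eq_true.1 C.tab_adj p hp
    rw [← (of_decide_eq_true h10) (e x) (e y), he, he, h6]
  · rintro ⟨j, rfl⟩
    refine ⟨?_, ?_, ?_⟩
    · show K1.IsInduced (sub (R j))
      have hd : ∀ x, adj x x = 0 := by decide
      exact ⟨fun _ => (⟨0, by omega⟩ : Fin n), fun a b _ => Subsingleton.elim (α := Fin 1) a b,
        fun x y => hd _⟩
    · show (sub (R j)).IsInduced G8
      exact ⟨R j, fun x y h => C.inj j x y h, fun x y => rfl⟩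
    · show n = 1 + k
      exact hk

theorem cls_inj (C : Cert n r R F L tab) :
    Function.Injective (fun j => cls (sub (R j))) := by
  intro i j h
  have h1 : (sub (R i)).Iso (sub (R j)) := Quotient.exact h
  exact C.dist i j (QG_iso h1)

theorem rank_of (k : ℕ) (hk : n = 1 + k) (C : Cert n r R F L tab) :
    rankSize (cls K1) (cls G8) k = r := by
  rw [rankSize, set_eq k hk C, ← Set.image_univ, (cls_inj C).injOn.ncard_image]
  simp

theorem rankC_of (k : ℕ) (hk : n = 1 + k) (C : Cert n r R F L tab) :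
    rankSizeC (cls K1) (cls G8) k = (Finset.univ.filter fun j => F j = true).card := by
  have h1 : {K : UGraph | K.Connected ∧ cls K1 ≤ K ∧ K ≤ cls G8 ∧
      K.order = (cls K1).order + k} =
      (fun j => cls (sub (R j))) '' ((Finset.univ.filter fun j => F j = true : Finset (Fin r)) :
        Set (Fin r)) := by
    ext K
    constructor
    · rintro ⟨hc, h⟩
      have h' : K ∈ Set.range (fun j => cls (sub (R j))) := by
        rw [← set_eq k hk C]
        exact h
      obtain ⟨j, rfl⟩ := h'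
      refine ⟨j, ?_, rfl⟩
      rw [Finset.mem_coe, Finset.mem_filter]
      refine ⟨Finset.mem_univ _, ?_⟩
      by_contra hF
      have hF' : F j = false := by simpa using hF
      obtain ⟨h3, h4⟩ := C.nconn j hF'
      exact not_conn_of (R j) (L j) h3 h4 hc
    · rintro ⟨j, hj, rfl⟩
      rw [Finset.mem_coe, Finset.mem_filter] at hj
      obtain ⟨h3, h4⟩ := C.conn j hj.2
      refine ⟨conn_of (R j) (L j) (by omega) h3 h4, ?_⟩
      have h5 : (fun j => cls (sub (R j))) j ∈ Set.range (fun j => cls (sub (R j))) := ⟨j, rfl⟩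
      rw [← set_eq k hk C] at h5
      exact h5
  rw [rankSizeC, h1, (cls_inj C).injOn.ncard_image, Set.ncard_coe_finset]

end

theorem C4 : Cert 4 6 R4 F4 L4 tab4 where
  tab_adj := by decide +kernel
  tab_all := by decide +kernel
  inj := by decide +kernel
  dist := by decide +kernel
  conn := by decide +kernel
  nconn := by decide +kernel

theorem C5 : Cert 5 5 R5 F5 L5 tab5 where
  tab_adj := by decide +kernel
  tab_all := by decide +kernel
  inj := by decide +kernel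
  dist := by decide +kernel
  conn := by decide +kernel
  nconn := by decide +kernel

theorem C6 : Cert 6 6 R6 F6 L6 tab6 where
  tab_adj := by decide +kernel
  tab_all := by decide +kernel
  inj := by decide +kernel
  dist := by decide +kernel
  conn := by decide +kernel
  nconn := by decide +kernel

theorem G8_connected : (cls G8).Connected := by
  show (sub (n := 8) id).Connected
  exact conn_of id ![0, 1, 1, 1, 1, 2, 2, 2] (by norm_num) (by decide) (by decide)

theorem K1_connected : (cls K1).Connected :=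
  ⟨Nat.one_pos, fun x y => by rw [Subsingleton.elim (α := Fin 1) x y]⟩

/-- Let `G` be the simple connected graph on `8` vertices consisting of two disjoint copies of `K₄`
joined by two disjoint edges. Then neither `[K₁, G]` nor `[K₁, G]^c` is unimodal: at the ranks
`3, 4, 5` the first has `6, 5, 6` elements and the second has `4, 3, 4`. -/
theorem result :
    (cls K1).Connected ∧ (cls G8).Connected ∧ cls K1 ≤ cls G8 ∧
    (cls K1).order = 1 ∧ (cls G8).order = 8 ∧
    rankSize (cls K1) (cls G8) 3 = 6 ∧ rankSize (cls K1) (cls G8) 4 = 5 ∧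
    rankSize (cls K1) (cls G8) 5 = 6 ∧
    rankSizeC (cls K1) (cls G8) 3 = 4 ∧ rankSizeC (cls K1) (cls G8) 4 = 3 ∧
    rankSizeC (cls K1) (cls G8) 5 = 4 ∧
    ¬ Unimodal (rankSize (cls K1) (cls G8)) ((cls G8).order - (cls K1).order) ∧
    ¬ Unimodal (rankSizeC (cls K1) (cls G8)) ((cls G8).order - (cls K1).order) := by
  have a3 : rankSize (cls K1) (cls G8) 3 = 6 := rank_of 3 rfl C4
  have a4 : rankSize (cls K1) (cls G8) 4 = 5 := rank_of 4 rfl C5
  have a5 : rankSize (cls K1) (cls G8) 5 = 6 := rank_of 5 rfl C6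
  have b3 : rankSizeC (cls K1) (cls G8) 3 = 4 := by rw [rankC_of 3 rfl C4]; decide
  have b4 : rankSizeC (cls K1) (cls G8) 4 = 3 := by rw [rankC_of 4 rfl C5]; decide
  have b5 : rankSizeC (cls K1) (cls G8) 5 = 4 := by rw [rankC_of 5 rfl C6]; decide
  have hH : (cls K1).order = 1 := rfl
  have hG : (cls G8).order = 8 := rfl
  refine ⟨K1_connected, G8_connected, ?_, hH, hG, a3, a4, a5, b3, b4, b5, ?_, ?_⟩
  · show K1.IsInduced G8
    exact ⟨fun _ => (0 : Fin 8), fun a b _ => Subsingleton.elim (α := Fin 1) a b, fun x y => rfl⟩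
  · rw [hH, hG]
    exact not_unimodal (i := 3) (j := 4) (k := 5) (by norm_num) (by norm_num) (by norm_num)
      (by omega) (by omega)
  · rw [hH, hG]
    exact not_unimodal (i := 3) (j := 4) (k := 5) (by norm_num) (by norm_num) (by norm_num)
      (by omega) (by omega)

end Pool.Agent.Results.MP_207d4d_co.NonUnimodal
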